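import Pool.Agent.H20.T4.Stm
import Pool.Agent.H9.TC.Basic

/-!
Project TM4, row PT: union of (G1), (N4), (G3).
-/

namespace Pool.Agent.H20.T4

open Finset Pool.Agent.H9.TC Pool.Agent.H20.TM

theorem pt_union {N : ℕ} {X Y : ℝ} {P : ℕ → Prop} (A : Finset ℕ) (Q : ℕ → ℕ → Prop)
    (h : ∀ j ∈ A, (cnt N (Q j) : ℝ) * X ≤ Y) (hP : ∀ m < N, P m → ∃ j ∈ A, Q j m) (hX : 0 ≤ X) :
    (cnt N P : ℝ) * X ≤ A.card * Y := by
  have h1 : cnt N P ≤ ∑ j ∈ A, cnt N (Q j) := (cnt_mono hP).trans (cnt_exists N A Q)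
  have h2 : (cnt N P : ℝ) ≤ ∑ j ∈ A, (cnt N (Q j) : ℝ) := by exact_mod_cast h1
  calc (cnt N P : ℝ) * X ≤ (∑ j ∈ A, (cnt N (Q j) : ℝ)) * X :=
        mul_le_mul_of_nonneg_right h2 hX
    _ = ∑ j ∈ A, (cnt N (Q j) : ℝ) * X := by rw [sum_mul]
    _ ≤ ∑ _j ∈ A, Y := sum_le_sum h
    _ = A.card * Y := by rw [sum_const, nsmul_eq_mul]

theorem pt (h1 : G1Stmt) (h4 : N4Stmt) (h3 : G3Stmt) : PTStmt := by
  intro q c g L g9 Kn ε hq hc hg hL hε
  obtain ⟨Ca, pa, ha⟩ := h1 c g hc hg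
  obtain ⟨Cb, pb, hb⟩ := h4 q c L g9 hq hc hL
  obtain ⟨Cc, pc, hcc⟩ := h3 c hc
  set C : ℝ := (2 * Kn + 2) * |Ca| + |Cb| + |Cc| with hC
  have hC0 : 0 ≤ C := by positivity
  obtain ⟨n0, hn0⟩ := pow_unbounded_of_one_lt (C / ε) (by norm_num : (1 : ℝ) < 2)
  refine ⟨max (max pa pb) (max pc n0), ?_⟩
  intro p hp v1 K1 K2 M μ τ a hK1 hK2 hv hq1 hM hMμ hμ hpτ ha1 ha2 hτ d e f
  have hpa : pa ≤ p := le_trans (le_trans (le_max_left _ _) (le_max_left _ _)) hp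
  have hpb : pb ≤ p := le_trans (le_trans (le_max_right _ _) (le_max_left _ _)) hp
  have hpc : pc ≤ p := le_trans (le_trans (le_max_left _ _) (le_max_right _ _)) hp
  have hpn : n0 ≤ p := le_trans (le_trans (le_max_right _ _) (le_max_right _ _)) hp
  have h2p : (0 : ℝ) < 2 ^ p := by positivity
  have h2a : (0 : ℝ) < 2 ^ a := by positivity
  -- one level
  have hNr : ∀ u : ℕ, 24 * p ≤ u → u ≤ a →
      (cnt (2 ^ a) (fun n => ¬ Nr M g u (dqua c d e f n)) : ℝ) * 2 ^ p ≤ |Ca| * 2 ^ a := by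
    intro u hu1 hu2
    refine (ha p hpa u a μ M hu1 hu2 hM hMμ hμ d e f).trans ?_
    exact mul_le_mul_of_nonneg_right (le_abs_self _) h2a.le
  -- first family
  have hA : (cnt (2 ^ a) (fun n => ∃ j ∈ range (K1 + 1),
      ¬ Nr M g (v1 + j * p) (dqua c d e f n)) : ℝ) * 2 ^ p ≤ (Kn + 1) * (|Ca| * 2 ^ a) := by
    have hh := pt_union (N := 2 ^ a) (X := 2 ^ p) (Y := |Ca| * 2 ^ a) (range (K1 + 1))
      (fun j n => ¬ Nr M g (v1 + j * p) (dqua c d e f n)) (P := fun n => ∃ j ∈ range (K1 + 1),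
        ¬ Nr M g (v1 + j * p) (dqua c d e f n)) ?_ (fun m _ hm => hm) h2p.le
    · refine hh.trans ?_
      refine mul_le_mul_of_nonneg_right ?_ (by positivity)
      rw [card_range]
      have : (K1 : ℝ) ≤ Kn := by exact_mod_cast hK1
      push_cast
      linarith
    · intro j hj
      have hj2 : j ≤ K1 := by
        have := mem_range.1 hj
        omega
      have hjp : j * p ≤ K1 * p := Nat.mul_le_mul_right p hj2
      exact hNr (v1 + j * p) (by omega) (by omega)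
  have hB := hNr (v1 + K1 * p + L) (by omega) (by omega)
  have hD : (cnt (2 ^ a) (fun n => ∃ j ∈ range K2,
      ¬ Nr M g (v1 + K1 * p + L + (2 * q + 4) * p + j * p) (dqua c d e f n)) : ℝ) * 2 ^ p ≤
        Kn * (|Ca| * 2 ^ a) := by
    have hh := pt_union (N := 2 ^ a) (X := 2 ^ p) (Y := |Ca| * 2 ^ a) (range K2)
      (fun j n => ¬ Nr M g (v1 + K1 * p + L + (2 * q + 4) * p + j * p) (dqua c d e f n))
      (P := fun n => ∃ j ∈ range K2,
        ¬ Nr M g (v1 + K1 * p + L + (2 * q + 4) * p + j * p) (dqua c d e f n)) ?_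
      (fun m _ hm => hm) h2p.le
    · refine hh.trans ?_
      refine mul_le_mul_of_nonneg_right ?_ (by positivity)
      rw [card_range]
      exact_mod_cast hK2
    · intro j hj
      have hj2 : j ≤ K2 := (mem_range.1 hj).le
      have hjp : j * p ≤ K2 * p := Nat.mul_le_mul_right p hj2
      exact hNr (v1 + K1 * p + L + (2 * q + 4) * p + j * p) (by omega) (by omega)
  have hK1p : (12 * q + 12) * p ≤ K1 * p := Nat.mul_le_mul_right p hq1
  have hE := hb p hpb v1 (v1 + K1 * p) a (by omega) (by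
    have : 0 ≤ (2 * q + 4) * p := Nat.zero_le _
    omega) d e f
  have hF := hcc τ (le_trans hpc hpτ) (v1 + K1 * p + L + (2 * q + 4) * p) a (by omega) (by omega)
    d e f
  have hE' : (cnt (2 ^ a) (fun n => ¬ Dir (∅ : Finset (Fin q)) 1 1 (2 ^ ((2 * q + 2) * p))
      (v1 + K1 * p) L g9 (fun _ => 0) ((2 : ℤ) ^ v1 * dqua c d e f n)) : ℝ) * 2 ^ p ≤
        |Cb| * 2 ^ a :=
    hE.trans (mul_le_mul_of_nonneg_right (le_abs_self _) h2a.le)
  have hF' : (cnt (2 ^ a) (fun n => ∃ t : ℕ, 1 ≤ t ∧ t ≤ 2 ^ τ ∧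
      small (v1 + K1 * p + L + (2 * q + 4) * p)
        ((2 : ℤ) ^ (v1 + K1 * p + L + (2 * q + 4) * p - 2 * τ))
        ((t : ℤ) * dqua c d e f n)) : ℝ) * 2 ^ p ≤ |Cc| * 2 ^ a := by
    have hpow : (2 : ℝ) ^ p ≤ 2 ^ τ := pow_le_pow_right₀ (by norm_num) hpτ
    refine le_trans (mul_le_mul_of_nonneg_left hpow (by positivity)) ?_
    exact hF.trans (mul_le_mul_of_nonneg_right (le_abs_self _) h2a.le)
  -- the union
  set PA : ℕ → Prop := fun n => ∃ j ∈ range (K1 + 1), ¬ Nr M g (v1 + j * p) (dqua c d e f n)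
    with hPA
  set PB : ℕ → Prop := fun n => ¬ Nr M g (v1 + K1 * p + L) (dqua c d e f n) with hPB
  set PD : ℕ → Prop := fun n => ∃ j ∈ range K2,
      ¬ Nr M g (v1 + K1 * p + L + (2 * q + 4) * p + j * p) (dqua c d e f n) with hPD
  set PE : ℕ → Prop := fun n => ¬ Dir (∅ : Finset (Fin q)) 1 1 (2 ^ ((2 * q + 2) * p))
      (v1 + K1 * p) L g9 (fun _ => 0) ((2 : ℤ) ^ v1 * dqua c d e f n) with hPE
  set PF : ℕ → Prop := fun n => ∃ t : ℕ, 1 ≤ t ∧ t ≤ 2 ^ τ ∧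
      small (v1 + K1 * p + L + (2 * q + 4) * p)
        ((2 : ℤ) ^ (v1 + K1 * p + L + (2 * q + 4) * p - 2 * τ))
        ((t : ℤ) * dqua c d e f n) with hPF
  have hun : cnt (2 ^ a) (fun n => ¬ Pt q p L g g9 v1 K1 K2 M τ c d e f n) ≤
      cnt (2 ^ a) PA + (cnt (2 ^ a) PB + (cnt (2 ^ a) PD + (cnt (2 ^ a) PE +
        cnt (2 ^ a) PF))) := by
    have e1 : cnt (2 ^ a) (fun n => ¬ Pt q p L g g9 v1 K1 K2 M τ c d e f n) ≤
        cnt (2 ^ a) (fun n => PA n ∨ (PB n ∨ (PD n ∨ (PE n ∨ PF n)))) := by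
      refine cnt_mono ?_
      intro n _ hn
      by_contra hcon
      rw [not_or, not_or, not_or, not_or] at hcon
      obtain ⟨c1, c2, c3, c4, c5⟩ := hcon
      refine hn ⟨?_, ?_, ?_, ?_, ?_⟩
      · intro j hj
        by_contra hj2
        exact c1 ⟨j, mem_range.2 (by omega), hj2⟩
      · exact not_not.1 c2
      · intro j hj
        by_contra hj2
        exact c3 ⟨j, mem_range.2 hj, hj2⟩
      · exact not_not.1 c4
      · intro t ht1 ht2 ht3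
        exact c5 ⟨t, ht1, ht2, ht3⟩
    have e2 := cnt_or (2 ^ a) PA (fun n => PB n ∨ (PD n ∨ (PE n ∨ PF n)))
    have e3 := cnt_or (2 ^ a) PB (fun n => PD n ∨ (PE n ∨ PF n))
    have e4 := cnt_or (2 ^ a) PD (fun n => PE n ∨ PF n)
    have e5 := cnt_or (2 ^ a) PE PF
    omega
  have hun2 : (cnt (2 ^ a) (fun n => ¬ Pt q p L g g9 v1 K1 K2 M τ c d e f n) : ℝ) ≤
      cnt (2 ^ a) PA + (cnt (2 ^ a) PB + (cnt (2 ^ a) PD + (cnt (2 ^ a) PE +
        cnt (2 ^ a) PF))) := by exact_mod_cast hun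
  have htot : (cnt (2 ^ a) (fun n => ¬ Pt q p L g g9 v1 K1 K2 M τ c d e f n) : ℝ) * 2 ^ p ≤
      C * 2 ^ a := by
    calc _ ≤ ((cnt (2 ^ a) PA : ℝ) + (cnt (2 ^ a) PB + (cnt (2 ^ a) PD + (cnt (2 ^ a) PE +
        cnt (2 ^ a) PF)))) * 2 ^ p := mul_le_mul_of_nonneg_right hun2 h2p.le
      _ = (cnt (2 ^ a) PA : ℝ) * 2 ^ p + ((cnt (2 ^ a) PB : ℝ) * 2 ^ p +
        ((cnt (2 ^ a) PD : ℝ) * 2 ^ p + ((cnt (2 ^ a) PE : ℝ) * 2 ^ p +
        (cnt (2 ^ a) PF : ℝ) * 2 ^ p))) := by ring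
      _ ≤ (Kn + 1) * (|Ca| * 2 ^ a) + (|Ca| * 2 ^ a + (Kn * (|Ca| * 2 ^ a) + (|Cb| * 2 ^ a +
        |Cc| * 2 ^ a))) := by
          refine add_le_add hA (add_le_add hB (add_le_add hD (add_le_add hE' hF')))
      _ = C * 2 ^ a := by rw [hC]; ring
  have hCp : C ≤ ε * 2 ^ p := by
    have e1 : C / ε ≤ 2 ^ p := hn0.le.trans (pow_le_pow_right₀ (by norm_num) hpn)
    rw [div_le_iff₀ hε] at e1
    linarith
  have hfin : (cnt (2 ^ a) (fun n => ¬ Pt q p L g g9 v1 K1 K2 M τ c d e f n) : ℝ) * 2 ^ p ≤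
      (ε * 2 ^ a) * 2 ^ p := by
    refine htot.trans ?_
    have := mul_le_mul_of_nonneg_right hCp h2a.le
    linarith [this, mul_comm (2 ^ p : ℝ) (2 ^ a)]
  exact le_of_mul_le_mul_right hfin h2p

end Pool.Agent.H20.T4
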